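import Pool.Agent.H4.Ray.Degree

/-!
# Directed double rays: the graph-theoretic statement fails

There is a digraph on the natural numbers, without loops and without antiparallel edges, in which
every vertex has at most three neighbours, which contains for every `n` a family of `n` pairwise
vertex-disjoint directed double rays, but no infinite family of pairwise edge-disjoint directed
double rays. So the principles IRT_DVD and IRT_DED are both false (in the standard model).
-/

namespace Pool.Agent.Results.MP_87773f_lc.DirectedDoubleRays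

open Pool.Agent.H4.Ray

theorem result : ∃ E : ℕ → ℕ → Prop,
    (∀ a b, E a b → ¬ E b a) ∧
    (∀ a, ∃ b c d, ∀ e, E a e ∨ E e a → e = b ∨ e = c ∨ e = d) ∧
    (∀ n : ℕ, ∃ f : Fin n → ℤ → ℕ,
      (∀ i, Function.Injective (f i) ∧ ∀ k, E (f i k) (f i (k + 1))) ∧
      ∀ i j, i ≠ j → ∀ k k', f i k ≠ f j k') ∧
    ¬ ∃ f : ℕ → ℤ → ℕ,
      (∀ i, Function.Injective (f i) ∧ ∀ k, E (f i k) (f i (k + 1))) ∧
      ∀ i j, i ≠ j → ∀ k k', ¬ (f i k = f j k' ∧ f i (k + 1) = f j (k' + 1)) := by
  refine ⟨Sp, fun a b h => sp_asymm h, sp_degree, fun n => ?_, ?_⟩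
  · obtain ⟨f, h1, h2⟩ := sp_many n
    refine ⟨fun i => f i, fun i => h1 i i.2, fun i j hij => h2 i i.2 j j.2 ?_⟩
    exact fun h => hij (Fin.ext h)
  · rintro ⟨f, h1, h2⟩
    exact sp_none f h1 h2

end Pool.Agent.Results.MP_87773f_lc.DirectedDoubleRays
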