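import Pool.Agent.H4.Ray.L2Std

/-!
# Separation of the infinite ray theorems

Let `T` be the theory RCA₀ + IΣ¹₁ + Z₂ (full second-order arithmetic) together with the four
single-ray principles IRT_UVS, IRT_UES, IRT_DVS, IRT_DES. Then `T` entails neither IRT_DVD nor
IRT_DED. In particular RCA₀ + IΣ¹₁ + IRT_XYS does not prove IRT_DY'D, for all `X`, `Y`, `Y'`.

The language, its models (Henkin structures, the set quantifiers ranging over a given family of
subsets of the first-order part), the axioms and the sentences `IRT X Y Z` are defined in
`Pool/Agent/H4/Ray/L2Def.lean`. The theorem `valid_IRT_iff` in `Pool/Agent/H4/Ray/L2Std.lean`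
gives the readable form of the sentences.

The model used is the standard model. The single-ray principles hold in it by Halin's argument
(`Pool/Agent/H4/Ray/Halin.lean`). For directed double rays both principles fail in it: there is an
explicit digraph with arbitrarily many vertex-disjoint directed double rays but without an infinite
family of edge-disjoint ones (`sp_many` and `sp_none` in `Pool/Agent/H4/Ray/Graph.lean`).
-/

namespace Pool.Agent.Results.MP_87773f_lc.NonImplication

open Pool.Agent.H4.L2

theorem result (Y : YKind) :
    ¬ Entails (RCA0 ∪ ISigma11 ∪ Z2 ∪ {φ | ∃ X Y', φ = IRT X Y' ZKind.S})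
      (IRT XKind.D Y ZKind.D) := by
  intro h
  exact std_not Y (h std fun ψ hψ => std_models hψ)

end Pool.Agent.Results.MP_87773f_lc.NonImplication
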